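import Mathlib
import Pool.Agent.H374R2.T.TaskE

/-!
# Two logarithms in the `D`-adic sense, for fractions congruent to one modulo `D`
-/

set_option autoImplicit false

namespace Pool.Agent.K9h9.SR

open Finset Pool.Agent.H374R2.T.TaskZ Pool.Agent.H374R2.T.TaskI
open Pool.Agent.H374R2.T.TaskE (exists_rows choose_bound)

lemma self_mul_le_two_pow {K L : ℕ} (hL : L ≤ K) : K * L ≤ 2 ^ (2 * K) := by
  calc K * L ≤ K * K := Nat.mul_le_mul_left _ hL
    _ ≤ 2 ^ K * 2 ^ K := Nat.mul_le_mul Nat.lt_two_pow_self.le Nat.lt_two_pow_self.le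
    _ = 2 ^ (2 * K) := by rw [← pow_add]; congr 1; ring

/-- two fractions `b / b'`, `c / c'` congruent to one modulo `D`: `(b / b') ^ r` and `(c / c') ^ q` are not
congruent modulo a high power of `D` -/
theorem dl_core {D b b' c c' q r p h ν τ T L R₂ S R K : ℕ} (hD : 2 ≤ D) (hb : b ≡ b' [MOD D])
    (hc : c ≡ c' [MOD D]) (hb1 : b ≠ b') (hb0 : 0 < b) (hb0' : 0 < b') (hc0 : 0 < c) (hc0' : 0 < c')
    (hbD : Nat.Coprime b D) (hbD' : Nat.Coprime b' D) (hcD : Nat.Coprime c D) (hcD' : Nat.Coprime c' D)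
    (hrel : b ^ r * c' ^ q ≡ b' ^ r * c ^ q [MOD D ^ p]) (hcop : Nat.Coprime q r) (hq : 0 < q)
    (hr : 0 < r) (hbh : b ≤ D ^ h) (hbh' : b' ≤ D ^ h) (hcν : c ≤ D ^ ν) (hcν' : c' ≤ D ^ ν)
    (hh : 1 ≤ h) (hν : 1 ≤ ν)
    (hT3 : 3 ≤ T) (hTτ : T ≤ 2 ^ τ) (hL : L = 4 * (τ + 4)) (hR₂ : R₂ = 10 * L * ν)
    (hS : S = 10 * L * h) (hR : R = R₂ + L - 1) (hK : K = 4 * (R * h + S * ν) + 1)
    (hTK : 3 * (R * q + S * r) ≤ K * T) (hRr : R₂ ≤ r) (hKp : K * L ≤ p) : False := by
  have hL1 : 16 ≤ L := by omega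
  obtain ⟨n, hn⟩ : ∃ n, n = K * L := ⟨_, rfl⟩
  have hKpos : 0 < K := by omega
  have hRS : R ≤ 11 * L * ν := by
    have h1 : L ≤ L * ν := Nat.le_mul_of_pos_right L hν
    have h2 : 11 * L * ν = 10 * L * ν + L * ν := by ring
    omega
  have hK1 : K - 1 ≤ 84 * (L * h * ν) := by
    have h1 : R * h ≤ 11 * L * ν * h := Nat.mul_le_mul_right _ hRS
    have h2 : K - 1 = 4 * (R * h + S * ν) := by omega
    rw [h2, hS]
    calc 4 * (R * h + 10 * L * h * ν) ≤ 4 * (11 * L * ν * h + 10 * L * h * ν) := by omega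
      _ = 84 * (L * h * ν) := by ring
  have hbase : 0 < L * h * ν := by positivity
  have hKL : (K - 1) * L < R₂ * S := by
    have h1 : (K - 1) * L ≤ 84 * (L * h * ν) * L := Nat.mul_le_mul_right _ hK1
    have h2 : R₂ * S = 100 * (L * h * ν) * L := by
      rw [hR₂, hS]
      ring
    have h3 : 0 < L * h * ν * L := by positivity
    rw [h2]
    calc (K - 1) * L ≤ 84 * (L * h * ν * L) := by rw [← mul_assoc]; exact h1
      _ < 100 * (L * h * ν * L) := by omega
      _ = _ := by ring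
  have hLK : L ≤ K := by
    have h1 : L ≤ S := by
      rw [hS]
      calc L = L * 1 := (mul_one L).symm
        _ ≤ 10 * L * h := by nlinarith
    have h2 : S ≤ S * ν := Nat.le_mul_of_pos_right S hν
    omega
  have hbQ : (0 : ℚ) < b := by exact_mod_cast hb0
  have hbQ' : (0 : ℚ) < b' := by exact_mod_cast hb0'
  have hcQ : (0 : ℚ) < c := by exact_mod_cast hc0
  have hcQ' : (0 : ℚ) < c' := by exact_mod_cast hc0'
  have hβpos : (0 : ℚ) < b / b' := by positivity
  have hκpos : (0 : ℚ) < c / c' := by positivity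
  have hβ1 : (b : ℚ) / b' ≠ 1 := by
    intro h1
    rw [div_eq_one_iff_eq hbQ'.ne'] at h1
    exact hb1 (by exact_mod_cast h1)
  let e : Fin K × Fin L ≃ Fin (K * L) := finProdFinEquiv
  let M : Matrix (Fin R × Fin S) (Fin (K * L)) ℚ := Matrix.of fun ρ col =>
    (Nat.choose (ρ.1 * q + ρ.2 * r) (e.symm col).1 : ℚ) *
      (((b : ℚ) / b') ^ (ρ.1 : ℕ) * ((c : ℚ) / c') ^ (ρ.2 : ℕ)) ^ ((e.symm col).2 : ℕ)
  have hinj : Function.Injective M.mulVec := by
    have hzero : ∀ d : Fin (K * L) → ℚ, M.mulVec d = 0 → d = 0 := by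
      intro d hd
      have hz := zero_estimate (K := K) (L := L) hβpos hβ1 hκpos hcop hRr hKL
        (fun k l => d (e (k, l))) (by
          intro r' s' hr' hs'
          have h1 := congrFun hd (⟨r', by omega⟩, ⟨s', hs'⟩)
          simp only [Matrix.mulVec, dotProduct, Pi.zero_apply] at h1
          rw [← h1, ← Fintype.sum_prod_type']
          apply Fintype.sum_equiv e
          intro col
          simp only [M, Matrix.of_apply, Equiv.symm_apply_apply]
          ring)
      funext col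
      have h2 := hz (e.symm col).1 (e.symm col).2
      simpa using h2
    intro u v huv
    have h1 : M.mulVec (u - v) = 0 := by
      rw [Matrix.mulVec_sub, huv, sub_self]
    exact sub_eq_zero.mp (hzero _ h1)
  obtain ⟨f, hf⟩ := exists_rows M hinj
  set N : Matrix (Fin (K * L)) (Fin (K * L)) ℤ := Matrix.of fun ρ col : Fin (K * L) =>
    ((Nat.choose (((f ρ).1 : ℕ) * q + ((f ρ).2 : ℕ) * r) ((e.symm col).1 : ℕ) *
      (b ^ (((f ρ).1 : ℕ) * ((e.symm col).2 : ℕ)) *
        b' ^ (((f ρ).1 : ℕ) * (L - 1 - ((e.symm col).2 : ℕ))) *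
        c ^ (((f ρ).2 : ℕ) * ((e.symm col).2 : ℕ)) *
        c' ^ (((f ρ).2 : ℕ) * (L - 1 - ((e.symm col).2 : ℕ)))) : ℕ) : ℤ) with hN
  have hdvd : (D : ℤ) ^ (n * (n - 1) / 2 - n * K) ∣ N.det := by
    rw [hn]
    apply det_dvd (n := K * L) (K := K) (L := L) (D := D) (Y := p) (i := q) (q := r)
      (b₁ := b) (b₂ := b') (c₁ := c) (c₂ := c') hD hbD hbD' hcD hcD'
      hb hc hKp hrel hcop hq hr
      (fun ρ => (f ρ).1) (fun ρ => (f ρ).2) (fun col => (e.symm col).1) (fun col => (e.symm col).2)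
      (fun col => (e.symm col).1.2) (fun col => (e.symm col).2.2)
  have hdet : N.det ≠ 0 := by
    intro h0
    apply hf
    have hrel2 : N.map (Int.cast : ℤ → ℚ) = Matrix.diagonal (fun ρ : Fin (K * L) =>
        (b' : ℚ) ^ (((f ρ).1 : ℕ) * (L - 1)) * (c' : ℚ) ^ (((f ρ).2 : ℕ) * (L - 1))) *
          M.submatrix f id := by
      ext ρ col
      rw [Matrix.diagonal_mul]
      simp only [hN, M, Matrix.map_apply, Matrix.of_apply, Matrix.submatrix_apply, id]
      push_cast
      have hl := (e.symm col).2.2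
      obtain ⟨t, ht⟩ : ∃ t, L - 1 = ((e.symm col).2 : ℕ) + t := ⟨L - 1 - (e.symm col).2, by omega⟩
      have ht2 : L - 1 - ((e.symm col).2 : ℕ) = t := by omega
      rw [ht2, ht, mul_pow, div_pow, div_pow, div_pow, div_pow]
      rw [mul_add, mul_add, pow_add, pow_add, ← pow_mul, ← pow_mul, ← pow_mul, ← pow_mul]
      field_simp
    have h1 : ((N.det : ℤ) : ℚ) = (N.map (Int.cast : ℤ → ℚ)).det := by
      have := RingHom.map_det (Int.castRingHom ℚ) N
      simpa using this
    rw [hrel2, Matrix.det_mul, Matrix.det_diagonal, h0, Int.cast_zero] at h1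
    rcases mul_eq_zero.mp h1.symm with h2 | h2
    · exfalso
      rw [Finset.prod_eq_zero_iff] at h2
      obtain ⟨ρ, _, hρ⟩ := h2
      have : (b' : ℚ) ^ (((f ρ).1 : ℕ) * (L - 1)) * (c' : ℚ) ^ (((f ρ).2 : ℕ) * (L - 1)) ≠ 0 := by
        positivity
      exact this hρ
    · exact h2
  -- the size of the entries
  obtain ⟨E, hE⟩ : ∃ E, E = τ * K + L * (R * h + S * ν) := ⟨_, rfl⟩
  have hup : |N.det| ≤ (n.factorial : ℤ) * ((D : ℤ) ^ E) ^ n := by
    have h1 := Matrix.det_le (A := N) (abv := AbsoluteValue.abs) (x := (D : ℤ) ^ E) (by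
        intro ρ col
        obtain ⟨r', hr'⟩ : ∃ r' : ℕ, r' = (f ρ).1 := ⟨_, rfl⟩
        obtain ⟨s', hs'⟩ : ∃ s' : ℕ, s' = (f ρ).2 := ⟨_, rfl⟩
        obtain ⟨k, hk⟩ : ∃ k : ℕ, k = (e.symm col).1 := ⟨_, rfl⟩
        obtain ⟨l, hl⟩ : ∃ l : ℕ, l = (e.symm col).2 := ⟨_, rfl⟩
        have hrR : r' < R := by rw [hr']; exact (f ρ).1.2
        have hsS : s' < S := by rw [hs']; exact (f ρ).2.2
        have hkK : k < K := by rw [hk]; exact (e.symm col).1.2
        have hlL : l < L := by rw [hl]; exact (e.symm col).2.2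
        have h2 : Nat.choose (r' * q + s' * r) k ≤ D ^ (τ * K) := by
          have h3 : Nat.choose (r' * q + s' * r) k ≤ T ^ K := by
            apply choose_bound (P := 3) le_rfl hT3 _ hkK.le
            calc (r' * q + s' * r) * 3 ≤ (R * q + S * r) * 3 := by gcongr
              _ = 3 * (R * q + S * r) := by ring
              _ ≤ _ := hTK
          refine h3.trans ?_
          rw [pow_mul]
          exact Nat.pow_le_pow_left (hTτ.trans (Nat.pow_le_pow_left hD τ)) K
        have hpair : ∀ (u u' g i X : ℕ), u ≤ D ^ g → u' ≤ D ^ g → i < X →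
            u ^ (i * l) * u' ^ (i * (L - 1 - l)) ≤ D ^ (g * (X * L)) := by
          intro u u' g i X hu hu' hi
          calc u ^ (i * l) * u' ^ (i * (L - 1 - l)) ≤ (D ^ g) ^ (i * l) * (D ^ g) ^ (i * (L - 1 - l)) :=
                Nat.mul_le_mul (Nat.pow_le_pow_left hu _) (Nat.pow_le_pow_left hu' _)
            _ = D ^ (g * (i * (l + (L - 1 - l)))) := by
                rw [← pow_add, ← pow_mul, mul_add i]
            _ ≤ _ := by
              apply Nat.pow_le_pow_right (by omega)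
              exact Nat.mul_le_mul_left _ (Nat.mul_le_mul hi.le (by omega))
        have h3 := hpair b b' h r' R hbh hbh' hrR
        have h4 := hpair c c' ν s' S hcν hcν' hsS
        have h5 : Nat.choose (r' * q + s' * r) k * (b ^ (r' * l) * b' ^ (r' * (L - 1 - l)) *
            c ^ (s' * l) * c' ^ (s' * (L - 1 - l))) ≤ D ^ E := by
          calc _ = Nat.choose (r' * q + s' * r) k * ((b ^ (r' * l) * b' ^ (r' * (L - 1 - l))) *
                (c ^ (s' * l) * c' ^ (s' * (L - 1 - l)))) := by ring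
            _ ≤ D ^ (τ * K) * (D ^ (h * (R * L)) * D ^ (ν * (S * L))) :=
                Nat.mul_le_mul h2 (Nat.mul_le_mul h3 h4)
            _ = D ^ E := by
              rw [← pow_add, ← pow_add, hE]
              congr 1
              ring
        rw [hN, Matrix.of_apply, AbsoluteValue.abs_apply, Nat.abs_cast]
        rw [← hr', ← hs', ← hk, ← hl]
        exact_mod_cast h5)
    rw [AbsoluteValue.abs_apply, Fintype.card_fin, nsmul_eq_mul] at h1
    rw [hn]
    exact h1
  have hlow : (D : ℤ) ^ (n * (n - 1) / 2 - n * K) ≤ |N.det| := by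
    apply Int.le_of_dvd (abs_pos.mpr hdet)
    exact (dvd_abs _ _).mpr hdvd
  have hchain : (D : ℤ) ^ (n * (n - 1) / 2 - n * K) ≤ (D : ℤ) ^ ((2 * K + E) * n) := by
    calc (D : ℤ) ^ (n * (n - 1) / 2 - n * K) ≤ |N.det| := hlow
      _ ≤ (n.factorial : ℤ) * ((D : ℤ) ^ E) ^ n := hup
      _ ≤ ((D : ℤ) ^ (2 * K)) ^ n * ((D : ℤ) ^ E) ^ n := by
          apply mul_le_mul_of_nonneg_right _ (by positivity)
          have h1 : n.factorial ≤ (D ^ (2 * K)) ^ n := by
            refine (Nat.factorial_le_pow n).trans (Nat.pow_le_pow_left ?_ n)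
            rw [hn]
            exact (self_mul_le_two_pow hLK).trans (Nat.pow_le_pow_left hD _)
          exact_mod_cast h1
      _ = (D : ℤ) ^ ((2 * K + E) * n) := by
          rw [← mul_pow, ← pow_add, ← pow_mul]
  have hle := (pow_le_pow_iff_right₀ (show (1 : ℤ) < D by exact_mod_cast hD)).mp hchain
  -- arithmetic
  have hE2 : 4 * (L * (R * h + S * ν)) ≤ L * (K - 1) := by
    have h1 : K - 1 = 4 * (R * h + S * ν) := by omega
    rw [h1]
    apply le_of_eq
    ring
  have hEK : 2 * E + 4 * K + 2 * K + 1 < n := by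
    have h1 : n = 4 * τ * K + 16 * K := by rw [hn, hL]; ring
    have h2 : L * (K - 1) ≤ L * K := Nat.mul_le_mul_left _ (Nat.sub_le _ _)
    have h3 : L * K = 4 * τ * K + 16 * K := by rw [hL]; ring
    have h4 : 2 * E = 2 * τ * K + 2 * (L * (R * h + S * ν)) := by rw [hE]; ring
    have h5 : 4 * τ * K = 2 * (2 * τ * K) := by ring
    omega
  have hn1 : 1 ≤ n := by omega
  have h6 : n * (n - 1) / 2 ≤ (2 * K + E) * n + n * K := by omega
  have h7 : n * (n - 1) < 2 * ((2 * K + E) * n + n * K) + 2 := by omega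
  obtain ⟨n', hn'⟩ : ∃ n', n = n' + 1 := ⟨n - 1, by omega⟩
  rw [hn', Nat.add_sub_cancel] at h7
  have h8 : 2 * E + 4 * K + 2 * K + 1 ≤ n' := by omega
  have h9 : (n' + 1) * (2 * E + 4 * K + 2 * K + 1) ≤ (n' + 1) * n' := Nat.mul_le_mul_left _ h8
  nlinarith

end Pool.Agent.K9h9.SR
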