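import Mathlib
import Pool.Agent.K9h9.SR.Two
import Pool.Agent.K9h9.CB.Par

/-!
# Two logarithms in the `D`-adic sense: the choice of the parameters
-/

set_option autoImplicit false

namespace Pool.Agent.K9h9.SR

lemma lt_max_of_modEq {D b b' : ℕ} (hb : b ≡ b' [MOD D]) (hb1 : b ≠ b') (hb0 : 0 < b)
    (hb0' : 0 < b') : D < max b b' := by
  rcases lt_or_gt_of_ne hb1 with h | h
  · have h1 : D ∣ b' - b := (Nat.modEq_iff_dvd' h.le).mp hb
    have h2 := Nat.le_of_dvd (by omega) h1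
    have h3 : b' ≤ max b b' := le_max_right _ _
    omega
  · have h1 : D ∣ b - b' := (Nat.modEq_iff_dvd' h.le).mp hb.symm
    have h2 := Nat.le_of_dvd (by omega) h1
    have h3 : b ≤ max b b' := le_max_left _ _
    omega

/-- If the fractions `b / b'` and `c / c'` are congruent to one modulo `D`, and `(b / b') ^ r` and
`(c / c') ^ q` are congruent modulo `D ^ p` and of height at most `D ^ (κ p)`, then the height of `c / c'` is
at least a power of `D` with an exponent proportional to `r`. -/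
theorem lower (κ : ℕ) (hκ : 1 ≤ κ) : ∃ C : ℕ, ∀ D b b' c c' q r p : ℕ, 2 ≤ D → b ≡ b' [MOD D] →
    c ≡ c' [MOD D] → b ≠ b' → c ≠ c' → 0 < b → 0 < b' → 0 < c → 0 < c' → Nat.Coprime b D →
    Nat.Coprime b' D → Nat.Coprime c D → Nat.Coprime c' D → b ^ r * c' ^ q ≡ b' ^ r * c ^ q [MOD D ^ p] →
    Nat.Coprime q r → 0 < q → 0 < r → (max b b') ^ r ≤ D ^ (κ * p) → (max c c') ^ q ≤ D ^ (κ * p) →
    D ^ r ≤ (max c c') ^ C := by
  obtain ⟨w₀, hw₀⟩ : ∃ w₀, w₀ = 2 ^ (343 * 2721 * κ) := ⟨_, rfl⟩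
  refine ⟨2 * w₀, ?_⟩
  intro D b₀ b' c₀ c' q r p hD hb hc hb1 hc1 hb0 hb0' hc0 hc0' hbD hbD' hcD hcD' hrel hcop hq hr hbr hcq
  have hD0 : 0 < D := by omega
  have hDb := lt_max_of_modEq hb hb1 hb0 hb0'
  have hDc := lt_max_of_modEq hc hc1 hc0 hc0'
  have hbm : b₀ ≤ max b₀ b' := le_max_left _ _
  have hbm' : b' ≤ max b₀ b' := le_max_right _ _
  have hcm : c₀ ≤ max c₀ c' := le_max_left _ _
  have hcm' : c' ≤ max c₀ c' := le_max_right _ _
  generalize max b₀ b' = b at hbr hDb hbm hbm'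
  generalize max c₀ c' = c at hcq hDc hcm hcm' ⊢
  have hrκ : r < κ * p := by
    have h1 : D ^ r < D ^ (κ * p) := (Nat.pow_lt_pow_left hDb hr.ne').trans_le hbr
    exact (Nat.pow_lt_pow_iff_right hD).mp h1
  obtain ⟨ν, hν⟩ : ∃ ν, ν = Nat.clog D c := ⟨_, rfl⟩
  have hcν : c ≤ D ^ ν := by rw [hν]; exact Nat.le_pow_clog hD c
  have hν2 : 2 ≤ ν := by
    by_contra hcon
    have h1 : D ^ ν ≤ D ^ 1 := Nat.pow_le_pow_right hD0 (by omega)
    rw [pow_one] at h1
    omega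
  have hνlt : D ^ (ν - 1) < c := by
    rw [hν]
    exact Nat.pow_pred_clog_lt_self hD (by omega)
  have hνq : ν * q ≤ 2 * (κ * p) := by
    have h1 : D ^ ((ν - 1) * q) < D ^ (κ * p) := by
      rw [pow_mul]
      exact (Nat.pow_lt_pow_left hνlt hq.ne').trans_le hcq
    have h2 := (Nat.pow_lt_pow_iff_right hD).mp h1
    have h3 : ν * q ≤ 2 * ((ν - 1) * q) := by
      calc ν * q ≤ (2 * (ν - 1)) * q := Nat.mul_le_mul_right _ (by omega)
        _ = _ := by ring
    omega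
  obtain ⟨h, hh⟩ : ∃ h, h = κ * p / r + 1 := ⟨_, rfl⟩
  have hhr : κ * p ≤ h * r := by
    have h1 := Nat.lt_div_mul_add (a := κ * p) hr
    have h2 : h * r = κ * p / r * r + r := by rw [hh]; ring
    omega
  have hhr2 : h * r ≤ 2 * (κ * p) := by
    have h1 := Nat.div_mul_le_self (κ * p) r
    have h2 : h * r = κ * p / r * r + r := by rw [hh]; ring
    omega
  have hbh : b ≤ D ^ h := by
    have h1 : b ^ r ≤ (D ^ h) ^ r := by
      rw [← pow_mul]
      exact hbr.trans (Nat.pow_le_pow_right hD0 hhr)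
    exact (Nat.pow_le_pow_iff_left hr.ne').mp h1
  obtain ⟨w, hw⟩ : ∃ w, w = r / ν + 1 := ⟨_, rfl⟩
  have hνpos : 0 < ν := by omega
  have hwν : r ≤ w * ν := by
    have h1 := Nat.lt_div_mul_add (a := r) hνpos
    have h2 : w * ν = r / ν * ν + ν := by rw [hw]; ring
    omega
  have hwr : (w - 1) * ν ≤ r := by
    have h1 : w - 1 = r / ν := by rw [hw, Nat.add_sub_cancel]
    rw [h1]
    exact Nat.div_mul_le_self r ν
  rcases Nat.lt_or_ge w w₀ with hlt | hge
  · -- the conclusion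
    have h1 : r ≤ 2 * w₀ * (ν - 1) := by
      calc r ≤ w * ν := hwν
        _ ≤ w₀ * (2 * (ν - 1)) := Nat.mul_le_mul hlt.le (by omega)
        _ = _ := by ring
    calc D ^ r ≤ D ^ (2 * w₀ * (ν - 1)) := Nat.pow_le_pow_right hD0 h1
      _ = (D ^ (ν - 1)) ^ (2 * w₀) := by rw [← pow_mul]; congr 1; ring
      _ ≤ c ^ (2 * w₀) := Nat.pow_le_pow_left hνlt.le _
  · exfalso
    have hgr := Pool.Agent.K9h9.CB.growth hκ (w := w) (by rw [← hw₀]; exact hge)
    obtain ⟨τ, hτ⟩ : ∃ τ, τ = Nat.log 2 w + 3 := ⟨_, rfl⟩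
    obtain ⟨L, hL⟩ : ∃ L, L = 4 * (τ + 4) := ⟨_, rfl⟩
    have hLw : 170 * κ * L ^ 2 + 1 ≤ w := by
      rw [hL, hτ]
      exact hgr
    have hL1 : 1 ≤ L := by omega
    have hκL : L ^ 2 ≤ κ * L ^ 2 := Nat.le_mul_of_pos_left _ hκ
    have hLL : L ≤ L ^ 2 := Nat.le_self_pow (by norm_num) L
    have h170 : 170 * κ * L ^ 2 = 170 * (κ * L ^ 2) := by ring
    have hT : 3 * w ≤ 2 ^ τ := by
      have h1 : w < 2 ^ (Nat.log 2 w + 1) := Nat.lt_pow_succ_log_self (by norm_num) w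
      have h2 : 2 ^ τ = 4 * 2 ^ (Nat.log 2 w + 1) := by
        rw [hτ, show Nat.log 2 w + 3 = (Nat.log 2 w + 1) + 2 by ring, pow_add]
        ring
      omega
    obtain ⟨R₂, hR₂⟩ : ∃ R₂, R₂ = 10 * L * ν := ⟨_, rfl⟩
    obtain ⟨S, hS⟩ : ∃ S, S = 10 * L * h := ⟨_, rfl⟩
    obtain ⟨R, hR⟩ : ∃ R, R = R₂ + L - 1 := ⟨_, rfl⟩
    obtain ⟨K, hK⟩ : ∃ K, K = 4 * (R * h + S * ν) + 1 := ⟨_, rfl⟩
    have hh1 : 1 ≤ h := by rw [hh]; exact Nat.le_add_left _ _
    have hRS : R ≤ 11 * L * ν := by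
      have h1 : L ≤ L * ν := Nat.le_mul_of_pos_right L hνpos
      have h2 : 11 * L * ν = 10 * L * ν + L * ν := by ring
      omega
    have hK80 : 80 * (L * (h * ν)) ≤ K := by
      have h1 : R₂ * h ≤ R * h := Nat.mul_le_mul_right _ (by omega)
      have h2 : 80 * (L * (h * ν)) = 4 * (R₂ * h + S * ν) := by rw [hR₂, hS]; ring
      omega
    have hK85 : K ≤ 85 * (L * (h * ν)) := by
      have h1 : R * h ≤ 11 * L * ν * h := Nat.mul_le_mul_right _ hRS
      have h2 : 4 * (11 * L * ν * h + S * ν) = 84 * (L * (h * ν)) := by rw [hS]; ring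
      have h3 : 0 < L * (h * ν) := by positivity
      omega
    refine dl_core (T := 3 * w) (τ := τ) hD hb hc hb1 hb0 hb0' hc0 hc0' hbD hbD' hcD hcD' hrel hcop hq hr
      (hbm.trans hbh) (hbm'.trans hbh) (hcm.trans hcν) (hcm'.trans hcν) hh1 (by omega)
      (by omega) hT hL hR₂ hS hR hK ?_ ?_ ?_
    · -- the binomial coefficients
      have h1 : 3 * (R * q + S * r) ≤ 126 * (L * (κ * p)) := by
        calc 3 * (R * q + S * r) ≤ 3 * (11 * L * ν * q + 10 * L * h * r) := by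
              rw [hS]
              gcongr
          _ = 33 * L * (ν * q) + 30 * L * (h * r) := by ring
          _ ≤ 33 * L * (2 * (κ * p)) + 30 * L * (2 * (κ * p)) := by gcongr
          _ = _ := by ring
      have h2 : 240 * (L * (κ * p)) ≤ K * (3 * w) := by
        calc 240 * (L * (κ * p)) ≤ 240 * (L * (h * (w * ν))) := by
              have : κ * p ≤ h * (w * ν) := hhr.trans (Nat.mul_le_mul_left _ hwν)
              gcongr
          _ = 80 * (L * (h * ν)) * (3 * w) := by ring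
          _ ≤ _ := Nat.mul_le_mul_right _ hK80
      omega
    · -- the number of points
      have h1 : 10 * L ≤ w - 1 := by omega
      calc R₂ = 10 * L * ν := hR₂
        _ ≤ (w - 1) * ν := Nat.mul_le_mul_right _ h1
        _ ≤ r := hwr
    · -- the size of the determinant
      have h1 : h * ν * (w - 1) ≤ 2 * (κ * p) := by
        calc h * ν * (w - 1) = h * ((w - 1) * ν) := by ring
          _ ≤ h * r := Nat.mul_le_mul_left _ hwr
          _ ≤ _ := hhr2
      have h2 : 170 * (κ * L ^ 2) ≤ w - 1 := by omega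
      have h3 : κ * (2 * (K * L)) ≤ κ * (2 * p) := by
        calc κ * (2 * (K * L)) ≤ κ * (2 * (85 * (L * (h * ν)) * L)) := by gcongr
          _ = h * ν * (170 * (κ * L ^ 2)) := by ring
          _ ≤ h * ν * (w - 1) := Nat.mul_le_mul_left _ h2
          _ ≤ 2 * (κ * p) := h1
          _ = _ := by ring
      have h4 := Nat.le_of_mul_le_mul_left h3 hκ
      omega

end Pool.Agent.K9h9.SR
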