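import Mathlib
import Pool.Agent.K9h9.SR.Par
import Pool.Agent.K9h9.CB.Core
import Pool.Agent.K9h9.T3.Rel

/-!
# Small roots: `y u ^ r` congruent to `± w ^ r` modulo `D`
-/

set_option autoImplicit false

namespace Pool.Agent.K9h9.SR

open Finset Pool.Agent.K9h9.CB

lemma eq_of_dvd_sub_mul {D : ℕ} (hD3 : 3 ≤ D) {α β m : ℤ} (hα : α = 1 ∨ α = -1) (hβ : β = 1 ∨ β = -1)
    (hm : IsCoprime (D : ℤ) m) (h : (D : ℤ) ∣ (α - β) * m) : α = β := by
  have h1 := hm.dvd_of_dvd_mul_right h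
  by_contra hne
  have h5 := Int.le_of_dvd (abs_pos.mpr (sub_ne_zero.mpr hne)) ((dvd_abs _ _).mpr h1)
  have h6 : |α - β| ≤ 2 := by
    rcases hα with h7 | h7 <;> rcases hβ with h8 | h8 <;> rw [h7, h8] <;> norm_num
  have h7 : (3 : ℤ) ≤ D := by exact_mod_cast hD3
  linarith

lemma pm_abs {u : ℤ} (hu : u = 1 ∨ u = -1) : |u| = 1 := by
  rcases hu with h | h <;> rw [h] <;> simp

lemma pm_sq {u : ℤ} (hu : u = 1 ∨ u = -1) : u * u = 1 := by
  rcases hu with h | h <;> rw [h] <;> norm_num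

lemma pm_pow_pm {u : ℤ} (hu : u = 1 ∨ u = -1) (n : ℕ) : u ^ n = 1 ∨ u ^ n = -1 := by
  rcases hu with h | h
  · left
    rw [h, one_pow]
  · rw [h]
    exact neg_one_pow_eq_or ℤ n

lemma pm_mul {u v : ℤ} (hu : u = 1 ∨ u = -1) (hv : v = 1 ∨ v = -1) : u * v = 1 ∨ u * v = -1 := by
  rcases hu with h | h <;> rcases hv with h' | h' <;> rw [h, h'] <;> norm_num

/-- The integers `b`, `B0`, `X`, `A`. -/
lemma exists_signs {x y z p q r D u w : ℕ} (hr : r.Prime) (hrq : ¬ r ∣ q) (heq : Eqn x y z p q r)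
    (hD3 : 3 ≤ D) (hDx : D ∣ x) (hp : p ≠ 0) (hwD : IsCoprime (D : ℤ) w)
    (h1 : (D : ℤ) ∣ y * u ^ r - w ^ r ∨ (D : ℤ) ∣ y * u ^ r + w ^ r)
    (h2 : (D : ℤ) ∣ z * u ^ q - w ^ q ∨ (D : ℤ) ∣ z * u ^ q + w ^ q) :
    ∃ b B0 X A : ℤ, |b| = z * u ^ q ∧ |B0| = w ^ q ∧ |X| = y * u ^ r ∧ |A| = w ^ r ∧
      (D : ℤ) ∣ X - A ∧ (D : ℤ) ∣ b - B0 ∧ (D : ℤ) ^ p ∣ b ^ r * A ^ q - X ^ q * B0 ^ r := by
  obtain ⟨s, t, hs, ht, hst⟩ := heq.signs
  have hDx' : (D : ℤ) ^ p ∣ (x : ℤ) ^ p := pow_dvd_pow_of_dvd (by exact_mod_cast hDx) p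
  have hDxp : (D : ℤ) ∣ (x : ℤ) ^ p := (dvd_pow_self _ hp).trans hDx'
  obtain ⟨δ, hδ, hD1⟩ : ∃ δ : ℤ, (δ = 1 ∨ δ = -1) ∧ (D : ℤ) ∣ y * u ^ r - δ * w ^ r := by
    rcases h1 with h | h
    · exact ⟨1, Or.inl rfl, by rw [one_mul]; exact h⟩
    · refine ⟨-1, Or.inr rfl, ?_⟩
      rw [neg_one_mul, sub_neg_eq_add]
      exact h
  obtain ⟨γ, hγ, hD2⟩ : ∃ γ : ℤ, (γ = 1 ∨ γ = -1) ∧ (D : ℤ) ∣ z * u ^ q - γ * w ^ q := by
    rcases h2 with h | h
    · exact ⟨1, Or.inl rfl, by rw [one_mul]; exact h⟩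
    · refine ⟨-1, Or.inr rfl, ?_⟩
      rw [neg_one_mul, sub_neg_eq_add]
      exact h
  have hδa := pm_abs hδ
  have hγa := pm_abs hγ
  have hta := pm_abs ht
  have htt := pm_sq ht
  have hwqr : IsCoprime (D : ℤ) ((w : ℤ) ^ (q * r)) := hwD.pow_right
  rcases Nat.Prime.eq_two_or_odd' hr with hr2 | hodd
  · -- `r = 2`
    have hqodd : Odd q := by
      rw [← Nat.not_even_iff_odd, even_iff_two_dvd, ← hr2]
      exact hrq
    have hpmq : ∀ v : ℤ, (v = 1 ∨ v = -1) → v ^ q = v := by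
      rintro v (rfl | rfl)
      · exact one_pow q
      · exact hqodd.neg_one_pow
    have htδ : t * δ = 1 := by
      refine eq_of_dvd_sub_mul hD3 (pm_mul ht hδ) (Or.inl rfl) hwqr ?_
      have h3 : (D : ℤ) ∣ (z * u ^ q) ^ r - (γ * w ^ q) ^ r := hD2.trans (sub_dvd_pow_sub_pow _ _ r)
      have h4 : (D : ℤ) ∣ (y * u ^ r) ^ q - (δ * w ^ r) ^ q := hD1.trans (sub_dvd_pow_sub_pow _ _ q)
      have h5 : (t * δ - 1) * (w : ℤ) ^ (q * r) = ((z * u ^ q) ^ r - (γ * w ^ q) ^ r) -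
          t * ((y * u ^ r) ^ q - (δ * w ^ r) ^ q) - s * u ^ (q * r) * x ^ p := by
        have h6 : ((z : ℤ) * u ^ q) ^ r = z ^ r * u ^ (q * r) := by rw [mul_pow, ← pow_mul]
        have h7 : (γ * (w : ℤ) ^ q) ^ r = w ^ (q * r) := by
          rw [mul_pow, ← pow_mul, hr2]
          rcases hγ with h | h <;> rw [h] <;> ring
        have h8 : ((y : ℤ) * u ^ r) ^ q = y ^ q * u ^ (q * r) := by
          rw [mul_pow, ← pow_mul, mul_comm r q]
        have h9 : (δ * (w : ℤ) ^ r) ^ q = δ * w ^ (q * r) := by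
          rw [mul_pow, ← pow_mul, mul_comm r q, hpmq δ hδ]
        rw [h6, h7, h8, h9, hst]
        ring
      rw [h5]
      exact dvd_sub (dvd_sub h3 (h4.mul_left _)) (hDxp.mul_left _)
    refine ⟨z * u ^ q, γ * w ^ q, t * (y * u ^ r), w ^ r, ?_, ?_, ?_, ?_, ?_, hD2, ?_⟩
    · exact abs_of_nonneg (by positivity)
    · rw [abs_mul, hγa, one_mul]
      exact abs_of_nonneg (by positivity)
    · rw [abs_mul, hta, one_mul]
      exact abs_of_nonneg (by positivity)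
    · exact abs_of_nonneg (by positivity)
    · have h3 : t * ((y : ℤ) * u ^ r) - w ^ r = t * (y * u ^ r - δ * w ^ r) := by
        linear_combination (w : ℤ) ^ r * htδ
      rw [h3]
      exact hD1.mul_left _
    · have h3 : ((z : ℤ) * u ^ q) ^ r * (w ^ r) ^ q - (t * (y * u ^ r)) ^ q * (γ * w ^ q) ^ r =
          s * u ^ (q * r) * w ^ (q * r) * x ^ p := by
        have h6 : ((z : ℤ) * u ^ q) ^ r = z ^ r * u ^ (q * r) := by rw [mul_pow, ← pow_mul]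
        have h7 : (γ * (w : ℤ) ^ q) ^ r = w ^ (q * r) := by
          rw [mul_pow, ← pow_mul, hr2]
          rcases hγ with h | h <;> rw [h] <;> ring
        have h8 : (t * ((y : ℤ) * u ^ r)) ^ q = t * (y ^ q * u ^ (q * r)) := by
          rw [mul_pow, mul_pow, ← pow_mul, mul_comm r q, hpmq t ht]
        have h9 : ((w : ℤ) ^ r) ^ q = w ^ (q * r) := by rw [← pow_mul, mul_comm r q]
        rw [h6, h7, h8, h9, hst]
        ring
      rw [h3]
      exact hDx'.mul_left _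
  · -- `r` odd
    have hpmr : ∀ v : ℤ, (v = 1 ∨ v = -1) → v ^ r = v := by
      rintro v (rfl | rfl)
      · exact one_pow r
      · exact hodd.neg_one_pow
    have hδq := pm_pow_pm hδ q
    have htγ : t * γ = δ ^ q := by
      refine eq_of_dvd_sub_mul hD3 (pm_mul ht hγ) hδq hwqr ?_
      have h3 : (D : ℤ) ∣ (z * u ^ q) ^ r - (γ * w ^ q) ^ r := hD2.trans (sub_dvd_pow_sub_pow _ _ r)
      have h4 : (D : ℤ) ∣ (y * u ^ r) ^ q - (δ * w ^ r) ^ q := hD1.trans (sub_dvd_pow_sub_pow _ _ q)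
      have h5 : (t * γ - δ ^ q) * (w : ℤ) ^ (q * r) = (-t) * ((z * u ^ q) ^ r - (γ * w ^ q) ^ r) +
          ((y * u ^ r) ^ q - (δ * w ^ r) ^ q) + t * s * u ^ (q * r) * x ^ p := by
        have h6 : ((z : ℤ) * u ^ q) ^ r = z ^ r * u ^ (q * r) := by rw [mul_pow, ← pow_mul]
        have h7 : (γ * (w : ℤ) ^ q) ^ r = γ * w ^ (q * r) := by
          rw [mul_pow, ← pow_mul, hpmr γ hγ]
        have h8 : ((y : ℤ) * u ^ r) ^ q = y ^ q * u ^ (q * r) := by
          rw [mul_pow, ← pow_mul, mul_comm r q]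
        have h9 : (δ * (w : ℤ) ^ r) ^ q = δ ^ q * w ^ (q * r) := by
          rw [mul_pow, ← pow_mul, mul_comm r q]
        rw [h6, h7, h8, h9, hst]
        linear_combination (y : ℤ) ^ q * u ^ (q * r) * htt
      rw [h5]
      exact dvd_add (dvd_add (h3.mul_left _) h4) (hDxp.mul_left _)
    refine ⟨t * (z * u ^ q), (t * γ) * w ^ q, y * u ^ r, δ * w ^ r, ?_, ?_, ?_, ?_, hD1, ?_, ?_⟩
    · rw [abs_mul, hta, one_mul]
      exact abs_of_nonneg (by positivity)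
    · rw [abs_mul, abs_mul, hγa, hta, one_mul, one_mul]
      exact abs_of_nonneg (by positivity)
    · exact abs_of_nonneg (by positivity)
    · rw [abs_mul, hδa, one_mul]
      exact abs_of_nonneg (by positivity)
    · have h3 : t * ((z : ℤ) * u ^ q) - t * γ * w ^ q = t * (z * u ^ q - γ * w ^ q) := by ring
      rw [h3]
      exact hD2.mul_left _
    · have h3 : (t * ((z : ℤ) * u ^ q)) ^ r * (δ * w ^ r) ^ q - (y * u ^ r) ^ q * (t * γ * w ^ q) ^ r =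
          t * s * δ ^ q * u ^ (q * r) * w ^ (q * r) * x ^ p := by
        have h6 : (t * ((z : ℤ) * u ^ q)) ^ r = t * (z ^ r * u ^ (q * r)) := by
          rw [mul_pow, mul_pow, ← pow_mul, hpmr t ht]
        have h7 : (t * γ * (w : ℤ) ^ q) ^ r = δ ^ q * w ^ (q * r) := by
          rw [htγ, mul_pow, hpmr _ hδq, ← pow_mul]
        have h8 : ((y : ℤ) * u ^ r) ^ q = y ^ q * u ^ (q * r) := by
          rw [mul_pow, ← pow_mul, mul_comm r q]
        have h9 : (δ * (w : ℤ) ^ r) ^ q = δ ^ q * w ^ (q * r) := by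
          rw [mul_pow, ← pow_mul, mul_comm r q]
        rw [h6, h7, h8, h9, hst]
        linear_combination (y : ℤ) ^ q * u ^ (q * r) * (δ ^ q * w ^ (q * r)) * htt
      rw [h3]
      exact hDx'.mul_left _

/-- the size of the monomials when `x ^ p u ^ (q r) ≤ H ^ q` -/
lemma mono2 {z u q y r w H i j n : ℕ} (hr : r ≠ 0) (hz : (z * u ^ q) ^ r ≤ 2 * H ^ q)
    (hy : y * u ^ r ≤ H) (hw : w ^ r ≤ H) (hj : j ≤ n) (hij : q * i ≤ r * (n - j)) :
    (z * u ^ q) ^ i * (y * u ^ r) ^ j * w ^ (r * (n - j) - q * i) ≤ 2 ^ i * H ^ n := by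
  rw [← Nat.pow_le_pow_iff_left hr]
  have h1 : ((z * u ^ q) ^ i * (y * u ^ r) ^ j * w ^ (r * (n - j) - q * i)) ^ r =
      ((z * u ^ q) ^ r) ^ i * ((y * u ^ r) ^ r) ^ j * (w ^ r) ^ (r * (n - j) - q * i) := by
    rw [mul_pow, mul_pow, ← pow_mul, ← pow_mul, ← pow_mul, ← pow_mul, ← pow_mul, ← pow_mul,
      mul_comm i r, mul_comm j r, mul_comm _ r]
  rw [h1]
  have h2 : q * i + r * j + (r * (n - j) - q * i) = r * n := by
    have h3 : r * n = r * j + r * (n - j) := by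
      rw [← mul_add]
      congr 1
      omega
    omega
  calc ((z * u ^ q) ^ r) ^ i * ((y * u ^ r) ^ r) ^ j * (w ^ r) ^ (r * (n - j) - q * i)
      ≤ (2 * H ^ q) ^ i * (H ^ r) ^ j * H ^ (r * (n - j) - q * i) := by gcongr
    _ = 2 ^ i * H ^ (r * n) := by
        rw [mul_pow, ← pow_mul, ← pow_mul, mul_assoc, mul_assoc, ← pow_add, ← pow_add, ← h2]
        congr 2
        ring
    _ ≤ (2 ^ i) ^ r * H ^ (r * n) := by
        apply Nat.mul_le_mul_right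
        exact Nat.le_self_pow hr _
    _ = _ := by rw [mul_pow, ← pow_mul H, mul_comm r n]

end Pool.Agent.K9h9.SR
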