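import Mathlib
import Pool.Agent.K9h9.SR.Frac

/-!
# Small roots: the lower bounds
-/

set_option autoImplicit false

namespace Pool.Agent.K9h9.SR

open Finset Pool.Agent.K9h9.CB

lemma max_sq (a b : ℕ) : max (a ^ 2) (b ^ 2) = (max a b) ^ 2 := by
  rcases le_total a b with h | h
  · rw [max_eq_right h, max_eq_right (Nat.pow_le_pow_left h 2)]
  · rw [max_eq_left h, max_eq_left (Nat.pow_le_pow_left h 2)]

theorem fracA (κ : ℕ) : ∃ C : ℕ, ∀ x y z p q r D u w : ℕ, 2 ≤ D → D ∣ x → 0 < y → 0 < z → 0 < u →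
    0 < w → Nat.Coprime w D → y * u ^ r ≠ w ^ r → z * u ^ q ≠ w ^ q →
    (y * u ^ r) ^ 2 ≡ (w ^ r) ^ 2 [MOD D] → (z * u ^ q) ^ 2 ≡ (w ^ q) ^ 2 [MOD D] → 0 < q → 0 < r →
    Nat.Coprime q r → Eqn x y z p q r → (max (y * u ^ r) (w ^ r)) ^ q ≤ D ^ (κ * p) →
    (z * u ^ q) ^ r ≤ D ^ (κ * p) → D ^ r ≤ (max (y * u ^ r) (w ^ r)) ^ C := by
  obtain ⟨C, hC⟩ := lower (2 * (κ + 1)) (by omega)
  refine ⟨2 * C, ?_⟩
  intro x y z p q r D u w hD hDx hy hz hu hw hwD hne1 hne2 h1 h2 hq hr hcop heq hH hzr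
  have hD0 : 0 < D := by omega
  have hD1 : D ^ (2 * (κ * p)) ≤ D ^ (2 * (κ + 1) * p) := by
    apply Nat.pow_le_pow_right hD0
    nlinarith
  have hrel : ((z * u ^ q) ^ 2) ^ r * ((w ^ r) ^ 2) ^ q ≡ ((w ^ q) ^ 2) ^ r * ((y * u ^ r) ^ 2) ^ q
      [MOD D ^ p] := by
    have h3 := (heq.modEq hDx).mul_right (u ^ (2 * (q * r)) * w ^ (2 * (q * r)))
    have h4 : ((z * u ^ q) ^ 2) ^ r * ((w ^ r) ^ 2) ^ q =
        (z ^ 2) ^ r * (u ^ (2 * (q * r)) * w ^ (2 * (q * r))) := by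
      have e0 : ((u ^ q) ^ 2) ^ r = u ^ (2 * (q * r)) := by
        rw [← pow_mul, ← pow_mul]
        congr 1
        ring
      have e1 : ((z * u ^ q) ^ 2) ^ r = (z ^ 2) ^ r * u ^ (2 * (q * r)) := by
        rw [mul_pow, mul_pow, e0]
      have e2 : ((w ^ r) ^ 2) ^ q = w ^ (2 * (q * r)) := by
        rw [← pow_mul, ← pow_mul]
        congr 1
        ring
      rw [e1, e2]
      ring
    have h5 : ((w ^ q) ^ 2) ^ r * ((y * u ^ r) ^ 2) ^ q =
        (y ^ 2) ^ q * (u ^ (2 * (q * r)) * w ^ (2 * (q * r))) := by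
      have e0 : ((u ^ r) ^ 2) ^ q = u ^ (2 * (q * r)) := by
        rw [← pow_mul, ← pow_mul]
        congr 1
        ring
      have e1 : ((y * u ^ r) ^ 2) ^ q = (y ^ 2) ^ q * u ^ (2 * (q * r)) := by
        rw [mul_pow, mul_pow, e0]
      have e2 : ((w ^ q) ^ 2) ^ r = w ^ (2 * (q * r)) := by
        rw [← pow_mul, ← pow_mul]
        congr 1
        ring
      rw [e1, e2]
      ring
    rw [h4, h5]
    exact h3
  have hcw : Nat.Coprime ((w ^ r) ^ 2) D := (hwD.pow_left r).pow_left 2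
  have hcw2 : Nat.Coprime ((w ^ q) ^ 2) D := (hwD.pow_left q).pow_left 2
  have hcy : Nat.Coprime ((y * u ^ r) ^ 2) D := by
    rw [Nat.coprime_iff_gcd_eq_one, h1.gcd_eq]
    exact hcw
  have hcz : Nat.Coprime ((z * u ^ q) ^ 2) D := by
    rw [Nat.coprime_iff_gcd_eq_one, h2.gcd_eq]
    exact hcw2
  have h3 := hC D ((z * u ^ q) ^ 2) ((w ^ q) ^ 2) ((y * u ^ r) ^ 2) ((w ^ r) ^ 2) q r p hD h2 h1
    (fun h => hne2 (Nat.pow_left_injective two_ne_zero h))
    (fun h => hne1 (Nat.pow_left_injective two_ne_zero h)) (by positivity) (by positivity)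
    (by positivity) (by positivity) hcz hcw2 hcy hcw hrel hcop hq hr (by
      rw [max_sq, ← pow_mul, mul_comm 2 r, pow_mul]
      refine le_trans ?_ hD1
      rw [mul_comm 2 (κ * p), pow_mul]
      apply Nat.pow_le_pow_left
      rcases le_total (z * u ^ q) (w ^ q) with h | h
      · rw [max_eq_right h]
        calc (w ^ q) ^ r = (w ^ r) ^ q := by rw [← pow_mul, ← pow_mul, mul_comm]
          _ ≤ (max (y * u ^ r) (w ^ r)) ^ q := Nat.pow_le_pow_left (le_max_right _ _) q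
          _ ≤ _ := hH
      · rw [max_eq_left h]
        exact hzr) (by
      rw [max_sq, ← pow_mul, mul_comm 2 q, pow_mul]
      refine le_trans ?_ hD1
      rw [mul_comm 2 (κ * p), pow_mul]
      exact Nat.pow_le_pow_left hH 2)
  rwa [max_sq, ← pow_mul] at h3

lemma sq_modEq_of_pm {D a b : ℕ} (h : (D : ℤ) ∣ a - b ∨ (D : ℤ) ∣ a + b) : a ^ 2 ≡ b ^ 2 [MOD D] := by
  apply Nat.ModEq.symm
  rw [Nat.modEq_iff_dvd]
  push_cast
  have h3 : (a : ℤ) ^ 2 - b ^ 2 = (a - b) * (a + b) := by ring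
  rw [h3]
  rcases h with h | h
  · exact h.mul_right _
  · exact h.mul_left _

theorem small_roots (θ ε : ℝ) (hθ : 1 ≤ θ) (hε : 0 < ε) (L : ℕ) (hL : 2 ≤ L) : ∃ D₀ P₀ : ℕ,
    ∀ x y z p q r D u w H : ℕ, D₀ ≤ D → P₀ ≤ p → r.Prime → L ≤ r → ¬ r ∣ q → ¬ r ∣ D → D ∣ x →
      0 < y → 0 < z → 0 < u → 0 < w → Nat.Coprime w D →
      ((D : ℤ) ∣ y * u ^ r - w ^ r ∨ (D : ℤ) ∣ y * u ^ r + w ^ r) →
      ((D : ℤ) ∣ z * u ^ q - w ^ q ∨ (D : ℤ) ∣ z * u ^ q + w ^ q) →
      y * u ^ r ≠ w ^ r → z * u ^ q ≠ w ^ q → Eqn x y z p q r → H = max (y * u ^ r) (w ^ r) →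
      (H : ℝ) ^ q ≤ (D : ℝ) ^ (θ * p) →
      ((x : ℝ) ^ p * u ^ (q * r) ≤ (H : ℝ) ^ q ∨
        w = 1 ∧ (x : ℝ) ^ p * u ^ (q * r) ≤ (D : ℝ) ^ (θ * p)) →
      (D : ℝ) ^ (L * (1 - θ * (L - 1) / (2 * r)) - ε) ≤ H := by
  obtain ⟨κ, hκ⟩ : ∃ κ : ℕ, κ = ⌈θ⌉₊ := ⟨_, rfl⟩
  have hθκ : θ ≤ κ := by rw [hκ]; exact Nat.le_ceil θ
  obtain ⟨C, hC⟩ := fracA (κ + 1)
  obtain ⟨D₀, P₀, hrel⟩ := Pool.Agent.K9h9.T3.rel θ ε (by linarith) hε L (L * C) (2 * κ) (by omega)
  refine ⟨D₀ + 3, P₀ + 1, ?_⟩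
  intro x y z p q r D u w H hD hp hr hLr hrq hrD hDx hy hz hu hw hwD h1 h2 hne1 hne2 heq hH hHq hx
  have hD3 : 3 ≤ D := by omega
  have hD2 : 2 ≤ D := by omega
  have hD0 : 0 < D := by omega
  have hp0 : p ≠ 0 := by omega
  have hDR : (3 : ℝ) ≤ D := by exact_mod_cast hD3
  have hD0R : (0 : ℝ) < D := by linarith
  have hr0 : 0 < r := hr.pos
  have hq0 : 0 < q := by
    rcases Nat.eq_zero_or_pos q with h | h
    · exfalso
      apply hrq
      rw [h]
      exact dvd_zero r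
    · exact h
  have hcop : Nat.Coprime q r := by
    rw [Nat.coprime_comm]
    exact (Nat.Prime.coprime_iff_not_dvd hr).mpr hrq
  have hDpow : ∀ u v : ℝ, u ≤ v → (D : ℝ) ^ u ≤ (D : ℝ) ^ v := fun u v h =>
    Real.rpow_le_rpow_of_exponent_le (by linarith) h
  have hs1 := sq_modEq_of_pm (D := D) (a := y * u ^ r) (b := w ^ r) (by push_cast; exact h1)
  have hs2 := sq_modEq_of_pm (D := D) (a := z * u ^ q) (b := w ^ q) (by push_cast; exact h2)
  have hyH : y * u ^ r ≤ H := by rw [hH]; exact le_max_left _ _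
  have hwH : w ^ r ≤ H := by rw [hH]; exact le_max_right _ _
  have hH1 : 1 ≤ H := by
    have : 0 < w ^ r := by positivity
    omega
  have hH1R : (1 : ℝ) ≤ H := by exact_mod_cast hH1
  have hH0R : (0 : ℝ) < H := by linarith
  have hDH : D ≤ H ^ 2 := by
    have h3 := lt_max_of_modEq hs1 (fun h => hne1 (Nat.pow_left_injective two_ne_zero h))
      (by positivity) (by positivity)
    rw [max_sq, ← hH] at h3
    exact h3.le
  have hxD : (x : ℝ) ^ p * u ^ (q * r) ≤ (D : ℝ) ^ (θ * p) := by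
    rcases hx with h | ⟨-, h⟩
    · exact h.trans hHq
    · exact h
  have hDκ : (D : ℝ) ^ (θ * p) ≤ ((D ^ (κ * p) : ℕ) : ℝ) := by
    push_cast
    rw [← Real.rpow_natCast]
    apply hDpow
    push_cast
    exact mul_le_mul_of_nonneg_right hθκ (Nat.cast_nonneg _)
  have hzsum : (z * u ^ q) ^ r ≤ x ^ p * u ^ (q * r) + H ^ q := by
    have h3 : (z * u ^ q) ^ r = z ^ r * u ^ (q * r) := by rw [mul_pow, ← pow_mul]
    have h4 : (y * u ^ r) ^ q = y ^ q * u ^ (q * r) := by rw [mul_pow, ← pow_mul, mul_comm r q]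
    calc (z * u ^ q) ^ r = z ^ r * u ^ (q * r) := h3
      _ ≤ (x ^ p + y ^ q) * u ^ (q * r) := Nat.mul_le_mul_right _ heq.le
      _ = x ^ p * u ^ (q * r) + (y * u ^ r) ^ q := by rw [h4]; ring
      _ ≤ _ := Nat.add_le_add_left (Nat.pow_le_pow_left hyH q) _
  have hzR : ((z : ℝ) * u ^ q) ^ r ≤ 2 * (D : ℝ) ^ (θ * p) := by
    have h3 : ((z : ℝ) * u ^ q) ^ r ≤ (x : ℝ) ^ p * u ^ (q * r) + (H : ℝ) ^ q := by exact_mod_cast hzsum
    linarith
  have hHqκ : H ^ q ≤ D ^ (κ * p) := by exact_mod_cast hHq.trans hDκ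
  by_contra hcon
  push Not at hcon
  -- the bound for `r`
  have hLR : (2 : ℝ) ≤ L := by exact_mod_cast hL
  have hLr' : (L : ℝ) ≤ r := by exact_mod_cast hLr
  have hrpos : (0 : ℝ) < r := by exact_mod_cast hr0
  have hrLC : r ≤ L * C := by
    have h3 := hC x y z p q r D u w hD2 hDx hy hz hu hw hwD hne1 hne2 hs1 hs2 hq0 hr0 hcop heq (by
      rw [← hH]
      refine hHqκ.trans (Nat.pow_le_pow_right hD0 ?_)
      exact Nat.mul_le_mul_right _ (by omega)) (by
      have h4 : ((z : ℝ) * u ^ q) ^ r ≤ ((2 * D ^ (κ * p) : ℕ) : ℝ) := by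
        push_cast at hDκ ⊢
        linarith
      have h5 : (z * u ^ q) ^ r ≤ 2 * D ^ (κ * p) := by exact_mod_cast h4
      calc (z * u ^ q) ^ r ≤ 2 * D ^ (κ * p) := h5
        _ ≤ D ^ p * D ^ (κ * p) := by
            apply Nat.mul_le_mul_right
            calc 2 ≤ D := hD2
              _ = D ^ 1 := (pow_one D).symm
              _ ≤ D ^ p := Nat.pow_le_pow_right hD0 (by omega)
        _ = _ := by rw [← pow_add]; congr 1; ring)
    rw [← hH] at h3
    have h4 : H < D ^ L := by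
      have h5 : (H : ℝ) < (D : ℝ) ^ (L : ℝ) := by
        refine hcon.trans_le (hDpow _ _ ?_)
        have h6 : 0 ≤ θ * (L - 1) / (2 * (r : ℝ)) := by
          apply div_nonneg _ (by linarith)
          exact mul_nonneg (by linarith) (by linarith)
        nlinarith
      rw [Real.rpow_natCast] at h5
      exact_mod_cast h5
    have h5 : D ^ r ≤ D ^ (L * C) := by
      rw [pow_mul]
      exact h3.trans (Nat.pow_le_pow_left h4.le C)
    exact (Nat.pow_le_pow_iff_right (by omega)).mp h5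
  have hq2 : q ≤ 2 * κ * p := by
    have h3 : D ^ q ≤ D ^ (2 * κ * p) := by
      calc D ^ q ≤ (H ^ 2) ^ q := Nat.pow_le_pow_left hDH q
        _ = (H ^ q) ^ 2 := by rw [← pow_mul, ← pow_mul, mul_comm]
        _ ≤ (D ^ (κ * p)) ^ 2 := Nat.pow_le_pow_left hHqκ 2
        _ = _ := by rw [← pow_mul]; congr 1; ring
    exact (Nat.pow_le_pow_iff_right (by omega)).mp h3
  have hwDZ : IsCoprime (D : ℤ) (w : ℤ) := by
    rw [Nat.isCoprime_iff_coprime, Nat.coprime_comm]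
    exact hwD
  obtain ⟨b, B0, X, A, hbabs, hB0abs, hXabs, hAabs, hDXA, hDb, hpow⟩ :=
    exists_signs hr hrq heq hD3 hDx hp0 hwDZ h1 h2
  have hb : b ≠ 0 := by
    apply abs_pos.mp
    rw [hbabs]
    positivity
  have hB0 : B0 ≠ 0 := by
    apply abs_pos.mp
    rw [hB0abs]
    positivity
  have hX : X ≠ 0 := by
    apply abs_pos.mp
    rw [hXabs]
    positivity
  have hA : A ≠ 0 := by
    apply abs_pos.mp
    rw [hAabs]
    positivity
  have hXA : X ≠ A := by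
    intro h
    rw [h, hAabs] at hXabs
    exact hne1 (by exact_mod_cast hXabs.symm)
  have hDr : IsCoprime (D : ℤ) (r : ℤ) := by
    rw [Nat.isCoprime_iff_coprime, Nat.coprime_comm]
    exact (Nat.Prime.coprime_iff_not_dvd hr).mpr hrD
  have hDA : IsCoprime (D : ℤ) A := by
    rw [← IsCoprime.abs_right_iff, hAabs]
    exact hwDZ.pow_right
  have hDB : IsCoprime (D : ℤ) B0 := by
    rw [← IsCoprime.abs_right_iff, hB0abs]
    exact hwDZ.pow_right
  have hbR : |(b : ℝ)| = z * u ^ q := by exact_mod_cast congrArg (Int.cast (R := ℝ)) hbabs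
  have hB0R : |(B0 : ℝ)| = w ^ q := by exact_mod_cast congrArg (Int.cast (R := ℝ)) hB0abs
  have hXR : |(X : ℝ)| = y * u ^ r := by exact_mod_cast congrArg (Int.cast (R := ℝ)) hXabs
  have hAR : |(A : ℝ)| = w ^ r := by exact_mod_cast congrArg (Int.cast (R := ℝ)) hAabs
  have hWdvd : ∀ (σ : ℕ → ℕ) (n : ℕ), (∀ i < L, ∀ j, σ i + j ≤ n → q * i ≤ r * (n - j)) → ∀ i < L, ∀ j,
      σ i + j ≤ n → ((w : ℤ) ^ (q * (L - 1))) ∣ B0 ^ (L - 1 - i) * A ^ (n - j) := by
    intro σ n hσ i hi j hij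
    rw [← dvd_abs, abs_mul, abs_pow, abs_pow, hB0abs, hAabs, ← pow_mul, ← pow_mul, ← pow_add]
    apply pow_dvd_pow
    have h3 := hσ i hi j hij
    have h4 : q * (L - 1) = q * (L - 1 - i) + q * i := by
      rw [← mul_add]
      congr 1
      omega
    omega
  have hlogH0 : 0 < Real.log H := by
    have h3 : (1 : ℝ) < H := by
      have h4 : 1 < H := by
        by_contra h5
        have h6 : H = 1 := by omega
        rw [h6] at hDH
        omega
      exact_mod_cast h4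
    exact Real.log_pos h3
  have hlogD0 : 0 < Real.log D := Real.log_pos (by linarith)
  -- the conclusion
  suffices hfin : (L * (1 - θ * (L - 1) / (2 * r)) - ε) * Real.log D ≤ Real.log H by
    have h3 := Real.log_lt_log hH0R hcon
    rw [Real.log_rpow hD0R] at h3
    linarith
  rcases hx with hx | ⟨hw1, hx⟩
  · -- the first case
    obtain ⟨lam, hlamdef⟩ : ∃ lam : ℝ, lam = (q : ℝ) / r := ⟨_, rfl⟩
    have hlam0 : 0 ≤ lam := by rw [hlamdef]; positivity
    obtain ⟨σ, hσ⟩ : ∃ σ : ℕ → ℕ, σ = fun i : ℕ => ⌈lam * (i : ℝ)⌉₊ := ⟨_, rfl⟩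
    have hσr : ∀ i, q * i ≤ r * σ i := by
      intro i
      have h3 : lam * i ≤ σ i := by rw [hσ]; exact Nat.le_ceil _
      have h4 : (q : ℝ) * i ≤ r * σ i := by
        calc (q : ℝ) * i = r * (lam * i) := by
              rw [hlamdef]
              field_simp
          _ ≤ _ := mul_le_mul_of_nonneg_left h3 hrpos.le
      exact_mod_cast h4
    have hσij : ∀ n, ∀ i < L, ∀ j, σ i + j ≤ n → q * i ≤ r * (n - j) := by
      intro n i _ j hij
      refine (hσr i).trans (Nat.mul_le_mul_left _ ?_)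
      omega
    have hzH : (z * u ^ q) ^ r ≤ 2 * H ^ q := by
      have h3 : x ^ p * u ^ (q * r) ≤ H ^ q := by exact_mod_cast hx
      omega
    refine hrel b B0 X A r q p D σ H lam (by omega) (by omega) hr hLr hrLC hrq hq2 hb hB0 hX hA hXA
      ((hDr.mul_right hDA).mul_right hDB) hDXA hpow ⟨1, by rw [pow_one]; exact hDb⟩
      (by exact_mod_cast hDH) hH1R hlam0 ?_ ?_ ?_
    · intro i _
      rw [hσ]
      exact (Nat.ceil_lt_add_one (by positivity)).le
    · rw [hlamdef, div_mul_eq_mul_div, div_le_div_iff_of_pos_right hrpos]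
      have h3 := Real.log_le_log (by positivity) hHq
      rw [Real.log_pow, Real.log_rpow hD0R] at h3
      exact h3
    · intro n
      refine ⟨(w : ℤ) ^ (q * (L - 1)), by positivity, hwDZ.pow_right, ?_⟩
      intro i hi j hij
      refine ⟨hWdvd σ n (hσij n) i hi j hij, ?_⟩
      rw [hbR, hB0R, hXR, hAR]
      have hij2 := hσij n i hi j hij
      have h3 := mono2 (z := z) (u := u) (q := q) (y := y) (r := r) (w := w) (H := H) (i := i) (j := j)
        (n := n) hr0.ne' hzH hyH hwH (by omega) hij2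
      have h4 : ((z : ℝ) * u ^ q) ^ i * (y * u ^ r) ^ j * w ^ (r * (n - j) - q * i) ≤
          2 ^ i * (H : ℝ) ^ n := by exact_mod_cast h3
      have h5 : ((z : ℝ) * u ^ q) ^ i * ((w : ℝ) ^ q) ^ (L - 1 - i) *
          ((y * u ^ r) ^ j * ((w : ℝ) ^ r) ^ (n - j)) = (w : ℝ) ^ (q * (L - 1)) *
          (((z : ℝ) * u ^ q) ^ i * (y * u ^ r) ^ j * w ^ (r * (n - j) - q * i)) := by
        have h6 : ((w : ℝ) ^ q) ^ (L - 1 - i) * ((w : ℝ) ^ r) ^ (n - j) =
            (w : ℝ) ^ (q * (L - 1)) * w ^ (r * (n - j) - q * i) := by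
          rw [← pow_mul, ← pow_mul, ← pow_add, ← pow_add]
          congr 1
          have h7 : q * (L - 1) = q * (L - 1 - i) + q * i := by
            rw [← mul_add]
            congr 1
            omega
          omega
        linear_combination (((z : ℝ) * u ^ q) ^ i * (y * u ^ r) ^ j) * h6
      rw [h5]
      have h6 : |(((w : ℤ) ^ (q * (L - 1)) : ℤ) : ℝ)| = (w : ℝ) ^ (q * (L - 1)) := by
        push_cast
        exact abs_of_nonneg (by positivity)
      rw [h6]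
      apply mul_le_mul_of_nonneg_left _ (by positivity)
      refine h4.trans ?_
      have h7 : (2 : ℝ) ^ i ≤ 2 ^ L := pow_le_pow_right₀ (by norm_num) hi.le
      gcongr
  · -- the second case
    subst hw1
    obtain ⟨lam, hlamdef⟩ : ∃ lam : ℝ, lam = θ * p * Real.log D / r / Real.log H := ⟨_, rfl⟩
    have hlam0 : 0 ≤ lam := by rw [hlamdef]; positivity
    have hlamH : lam * Real.log H = θ * p * Real.log D / r := by
      rw [hlamdef]
      field_simp
    obtain ⟨σ, hσ⟩ : ∃ σ : ℕ → ℕ, σ = fun i : ℕ => ⌈lam * (i : ℝ)⌉₊ := ⟨_, rfl⟩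
    have hHlam : (H : ℝ) ^ lam = (D : ℝ) ^ (θ * p / r) := by
      rw [Real.rpow_def_of_pos hH0R, Real.rpow_def_of_pos hD0R, mul_comm (Real.log H), hlamH]
      congr 1
      ring
    have hzlam : (z : ℝ) * u ^ q ≤ 2 * (H : ℝ) ^ lam := by
      rw [hHlam]
      refine le_of_pow_le_pow_left₀ hr0.ne' (by positivity) (hzR.trans ?_)
      rw [mul_pow, ← Real.rpow_natCast ((D : ℝ) ^ (θ * p / r)), ← Real.rpow_mul hD0R.le,
        div_mul_cancel₀ _ hrpos.ne']
      have h3 : (2 : ℝ) ≤ 2 ^ r := le_self_pow₀ (by norm_num) hr0.ne'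
      gcongr
    refine hrel b B0 X A r q p D σ H lam (by omega) (by omega) hr hLr hrLC hrq hq2 hb hB0 hX hA hXA
      ((hDr.mul_right hDA).mul_right hDB) hDXA hpow ⟨1, by rw [pow_one]; exact hDb⟩
      (by exact_mod_cast hDH) hH1R hlam0 ?_ hlamH.le ?_
    · intro i _
      rw [hσ]
      exact (Nat.ceil_lt_add_one (by positivity)).le
    · intro n
      refine ⟨1, one_ne_zero, isCoprime_one_right, ?_⟩
      intro i hi j hij
      refine ⟨one_dvd _, ?_⟩
      rw [hbR, hB0R, hXR, hAR]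
      push_cast
      simp only [one_pow, mul_one, abs_one, one_mul]
      have h3 : ((z : ℝ) * u ^ q) ^ i ≤ 2 ^ L * (H : ℝ) ^ (σ i) := by
        calc ((z : ℝ) * u ^ q) ^ i ≤ (2 * (H : ℝ) ^ lam) ^ i :=
              pow_le_pow_left₀ (by positivity) hzlam i
          _ = 2 ^ i * (H : ℝ) ^ (lam * i) := by
              rw [mul_pow, ← Real.rpow_natCast ((H : ℝ) ^ lam), ← Real.rpow_mul hH0R.le]
          _ ≤ 2 ^ L * (H : ℝ) ^ ((σ i : ℕ) : ℝ) := by
              have h4 : (2 : ℝ) ^ i ≤ 2 ^ L := pow_le_pow_right₀ (by norm_num) hi.le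
              have h5 : (H : ℝ) ^ (lam * i) ≤ (H : ℝ) ^ ((σ i : ℕ) : ℝ) := by
                apply Real.rpow_le_rpow_of_exponent_le hH1R
                rw [hσ]
                exact Nat.le_ceil _
              gcongr
          _ = _ := by rw [Real.rpow_natCast]
      have h4 : ((y : ℝ) * u ^ r) ^ j ≤ (H : ℝ) ^ j := by
        apply pow_le_pow_left₀ (by positivity)
        exact_mod_cast hyH
      have h5 : (H : ℝ) ^ (σ i) * (H : ℝ) ^ j ≤ (H : ℝ) ^ n := by
        rw [← pow_add]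
        exact pow_le_pow_right₀ hH1R hij
      calc ((z : ℝ) * u ^ q) ^ i * ((y : ℝ) * u ^ r) ^ j ≤ (2 ^ L * (H : ℝ) ^ (σ i)) * (H : ℝ) ^ j := by
            gcongr
        _ = 2 ^ L * ((H : ℝ) ^ (σ i) * (H : ℝ) ^ j) := by ring
        _ ≤ _ := by gcongr

end Pool.Agent.K9h9.SR
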