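import Mathlib
import Pool.Agent.K9h9.SR.Small
import Pool.Agent.K9h9.Elem

/-!
# Small roots: the lower bound, general form
-/

set_option autoImplicit false

namespace Pool.Agent.K9h9.SR

open Finset Pool.Agent.K9h9.CB

/-- the congruence for `z` -/
lemma zcong {x y z p q r D u w : ℕ} (hr : r.Prime) (hD3 : 3 ≤ D) (hDx : D ∣ x) (hp : p ≠ 0)
    (hwD : Nat.Coprime w D) (heq : Eqn x y z p q r)
    (h1 : (D : ℤ) ∣ y * u ^ r - w ^ r ∨ (D : ℤ) ∣ y * u ^ r + w ^ r)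
    (h2 : ¬ r ∣ D.totient ∨ (D : ℤ) ∣ z * u ^ q - w ^ q ∨ (D : ℤ) ∣ z * u ^ q + w ^ q) :
    (D : ℤ) ∣ z * u ^ q - w ^ q ∨ (D : ℤ) ∣ z * u ^ q + w ^ q := by
  rcases h2 with hφ | h2
  swap
  · exact h2
  have hodd : Odd r := by
    rcases hr.eq_two_or_odd' with h | h
    · exfalso
      apply hφ
      rw [h]
      exact even_iff_two_dvd.mp (Nat.totient_even (by omega))
    · exact h
  obtain ⟨s, t, hs, ht, hst⟩ := heq.signs
  have hDx' : (D : ℤ) ∣ (x : ℤ) ^ p := (show (D : ℤ) ∣ x by exact_mod_cast hDx).trans (dvd_pow_self _ hp)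
  obtain ⟨δ, hδ, hD1⟩ : ∃ δ : ℤ, (δ = 1 ∨ δ = -1) ∧ (D : ℤ) ∣ y * u ^ r - δ * w ^ r := by
    rcases h1 with h | h
    · exact ⟨1, Or.inl rfl, by rw [one_mul]; exact h⟩
    · refine ⟨-1, Or.inr rfl, ?_⟩
      rw [neg_one_mul, sub_neg_eq_add]
      exact h
  have hδq := pm_pow_pm hδ q
  have htδ := pm_mul ht hδq
  have hpmr : ∀ v : ℤ, (v = 1 ∨ v = -1) → v ^ r = v := by
    rintro v (rfl | rfl)
    · exact one_pow r
    · exact hodd.neg_one_pow
  have h3 : (D : ℤ) ∣ (y * u ^ r) ^ q - (δ * w ^ r) ^ q := hD1.trans (sub_dvd_pow_sub_pow _ _ q)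
  have hwDZ : IsCoprime (D : ℤ) (w : ℤ) := by
    rw [Nat.isCoprime_iff_coprime, Nat.coprime_comm]
    exact hwD
  have hcop : IsCoprime (D : ℤ) ((t * δ ^ q) * w ^ q) := by
    refine IsCoprime.mul_right ?_ hwDZ.pow_right
    rcases htδ with h | h <;> rw [h]
    · exact isCoprime_one_right
    · exact isCoprime_one_right.neg_right
  have h4 : (D : ℤ) ∣ (z * u ^ q) ^ r - ((t * δ ^ q) * w ^ q) ^ r := by
    have h5 : ((z : ℤ) * u ^ q) ^ r - ((t * δ ^ q) * w ^ q) ^ r =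
        t * ((y * u ^ r) ^ q - (δ * w ^ r) ^ q) + s * u ^ (q * r) * x ^ p := by
      have h6 : ((z : ℤ) * u ^ q) ^ r = z ^ r * u ^ (q * r) := by rw [mul_pow, ← pow_mul]
      have h7 : ((t * δ ^ q) * (w : ℤ) ^ q) ^ r = t * δ ^ q * w ^ (q * r) := by
        rw [mul_pow, hpmr _ htδ, ← pow_mul]
      have h8 : ((y : ℤ) * u ^ r) ^ q = y ^ q * u ^ (q * r) := by
        rw [mul_pow, ← pow_mul, mul_comm r q]
      have h9 : (δ * (w : ℤ) ^ r) ^ q = δ ^ q * w ^ (q * r) := by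
        rw [mul_pow, ← pow_mul, mul_comm r q]
      rw [h6, h7, h8, h9, hst]
      ring
    rw [h5]
    exact dvd_add (h3.mul_left _) (hDx'.mul_left _)
  have h5 := dvd_sub_of_pow hr (by omega) hφ hcop h4
  rcases htδ with h | h
  · left
    rw [h, one_mul] at h5
    exact h5
  · right
    rw [h, neg_one_mul, sub_neg_eq_add] at h5
    exact h5

theorem small_roots2 (θ ε : ℝ) (hθ : 1 ≤ θ) (hε : 0 < ε) (L : ℕ) (hL : 2 ≤ L) : ∃ D₀ P₀ : ℕ,
    ∀ (x y z p q r D u w H : ℕ) (s : ℝ), D₀ ≤ D → P₀ ≤ p → r.Prime → L ≤ r → ¬ r ∣ q → ¬ r ∣ D →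
      D ∣ x → 0 < y → 0 < z → 0 < u → 0 < w → Nat.Coprime w D →
      ((D : ℤ) ∣ y * u ^ r - w ^ r ∨ (D : ℤ) ∣ y * u ^ r + w ^ r) →
      (¬ r ∣ D.totient ∨ (D : ℤ) ∣ z * u ^ q - w ^ q ∨ (D : ℤ) ∣ z * u ^ q + w ^ q) →
      y * u ^ r ≠ w ^ r → z * u ^ q ≠ w ^ q → Eqn x y z p q r → H = max (y * u ^ r) (w ^ r) →
      q ≤ s → (H : ℝ) ^ s ≤ (D : ℝ) ^ (θ * p) →
      (x : ℝ) ^ p * (u : ℝ) ^ (q * r) * (w : ℝ) ^ (r * (s - q)) ≤ (H : ℝ) ^ s →
      (D : ℝ) ^ (L * (1 - θ * (L - 1) / (2 * r)) - ε) ≤ H := by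
  obtain ⟨κ, hκ⟩ : ∃ κ : ℕ, κ = ⌈θ⌉₊ := ⟨_, rfl⟩
  have hθκ : θ ≤ κ := by rw [hκ]; exact Nat.le_ceil θ
  obtain ⟨C, hC⟩ := fracA (κ + 1)
  obtain ⟨D₀, P₀, hrel⟩ := Pool.Agent.K9h9.T3.rel θ ε (by linarith) hε L (L * C) (2 * κ) (by omega)
  refine ⟨D₀ + 3, P₀ + 1, ?_⟩
  intro x y z p q r D u w H s hD hp hr hLr hrq hrD hDx hy hz hu hw hwD h1 h2' hne1 hne2 heq hH hqs hHs hx
  have hD3 : 3 ≤ D := by omega
  have hD2 : 2 ≤ D := by omega
  have hD0 : 0 < D := by omega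
  have hp0 : p ≠ 0 := by omega
  have hDR : (3 : ℝ) ≤ D := by exact_mod_cast hD3
  have hD0R : (0 : ℝ) < D := by linarith
  have hr0 : 0 < r := hr.pos
  have hq0 : 0 < q := by
    rcases Nat.eq_zero_or_pos q with h | h
    · exfalso
      apply hrq
      rw [h]
      exact dvd_zero r
    · exact h
  have hcop : Nat.Coprime q r := by
    rw [Nat.coprime_comm]
    exact (Nat.Prime.coprime_iff_not_dvd hr).mpr hrq
  have hDpow : ∀ u v : ℝ, u ≤ v → (D : ℝ) ^ u ≤ (D : ℝ) ^ v := fun u v h =>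
    Real.rpow_le_rpow_of_exponent_le (by linarith) h
  have h2 := zcong hr hD3 hDx hp0 hwD heq h1 h2'
  have hs1 := sq_modEq_of_pm (D := D) (a := y * u ^ r) (b := w ^ r) (by push_cast; exact h1)
  have hs2 := sq_modEq_of_pm (D := D) (a := z * u ^ q) (b := w ^ q) (by push_cast; exact h2)
  have hyH : y * u ^ r ≤ H := by rw [hH]; exact le_max_left _ _
  have hwH : w ^ r ≤ H := by rw [hH]; exact le_max_right _ _
  have hH1 : 1 ≤ H := by
    have : 0 < w ^ r := by positivity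
    omega
  have hH1R : (1 : ℝ) ≤ H := by exact_mod_cast hH1
  have hH0R : (0 : ℝ) < H := by linarith
  have hDH : D ≤ H ^ 2 := by
    have h3 := lt_max_of_modEq hs1 (fun h => hne1 (Nat.pow_left_injective two_ne_zero h))
      (by positivity) (by positivity)
    rw [max_sq, ← hH] at h3
    exact h3.le
  have hw1R : (1 : ℝ) ≤ w := by exact_mod_cast hw
  have hrs : (0 : ℝ) ≤ r * (s - q) := mul_nonneg (Nat.cast_nonneg _) (by linarith)
  have hws1 : (1 : ℝ) ≤ (w : ℝ) ^ (r * (s - q)) := Real.one_le_rpow hw1R hrs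
  have hHq : (H : ℝ) ^ q ≤ (D : ℝ) ^ (θ * p) := by
    refine le_trans ?_ hHs
    rw [← Real.rpow_natCast]
    exact Real.rpow_le_rpow_of_exponent_le hH1R hqs
  have hxD : (x : ℝ) ^ p * u ^ (q * r) ≤ (D : ℝ) ^ (θ * p) := by
    refine le_trans ?_ (hx.trans hHs)
    exact le_mul_of_one_le_right (by positivity) hws1
  have hDκ : (D : ℝ) ^ (θ * p) ≤ ((D ^ (κ * p) : ℕ) : ℝ) := by
    push_cast
    rw [← Real.rpow_natCast]
    apply hDpow
    push_cast
    exact mul_le_mul_of_nonneg_right hθκ (Nat.cast_nonneg _)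
  have hzsum : (z * u ^ q) ^ r ≤ x ^ p * u ^ (q * r) + H ^ q := by
    have h3 : (z * u ^ q) ^ r = z ^ r * u ^ (q * r) := by rw [mul_pow, ← pow_mul]
    have h4 : (y * u ^ r) ^ q = y ^ q * u ^ (q * r) := by rw [mul_pow, ← pow_mul, mul_comm r q]
    calc (z * u ^ q) ^ r = z ^ r * u ^ (q * r) := h3
      _ ≤ (x ^ p + y ^ q) * u ^ (q * r) := Nat.mul_le_mul_right _ heq.le
      _ = x ^ p * u ^ (q * r) + (y * u ^ r) ^ q := by rw [h4]; ring
      _ ≤ _ := Nat.add_le_add_left (Nat.pow_le_pow_left hyH q) _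
  have hzR : ((z : ℝ) * u ^ q) ^ r ≤ 2 * (D : ℝ) ^ (θ * p) := by
    have h3 : ((z : ℝ) * u ^ q) ^ r ≤ (x : ℝ) ^ p * u ^ (q * r) + (H : ℝ) ^ q := by exact_mod_cast hzsum
    linarith
  have hHqκ : H ^ q ≤ D ^ (κ * p) := by exact_mod_cast hHq.trans hDκ
  by_contra hcon
  push Not at hcon
  -- the bound for `r`
  have hLR : (2 : ℝ) ≤ L := by exact_mod_cast hL
  have hLr' : (L : ℝ) ≤ r := by exact_mod_cast hLr
  have hrpos : (0 : ℝ) < r := by exact_mod_cast hr0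
  have hrLC : r ≤ L * C := by
    have h3 := hC x y z p q r D u w hD2 hDx hy hz hu hw hwD hne1 hne2 hs1 hs2 hq0 hr0 hcop heq (by
      rw [← hH]
      refine hHqκ.trans (Nat.pow_le_pow_right hD0 ?_)
      exact Nat.mul_le_mul_right _ (by omega)) (by
      have h4 : ((z : ℝ) * u ^ q) ^ r ≤ ((2 * D ^ (κ * p) : ℕ) : ℝ) := by
        push_cast at hDκ ⊢
        linarith
      have h5 : (z * u ^ q) ^ r ≤ 2 * D ^ (κ * p) := by exact_mod_cast h4
      calc (z * u ^ q) ^ r ≤ 2 * D ^ (κ * p) := h5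
        _ ≤ D ^ p * D ^ (κ * p) := by
            apply Nat.mul_le_mul_right
            calc 2 ≤ D := hD2
              _ = D ^ 1 := (pow_one D).symm
              _ ≤ D ^ p := Nat.pow_le_pow_right hD0 (by omega)
        _ = _ := by rw [← pow_add]; congr 1; ring)
    rw [← hH] at h3
    have h4 : H < D ^ L := by
      have h5 : (H : ℝ) < (D : ℝ) ^ (L : ℝ) := by
        refine hcon.trans_le (hDpow _ _ ?_)
        have h6 : 0 ≤ θ * (L - 1) / (2 * (r : ℝ)) := by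
          apply div_nonneg _ (by linarith)
          exact mul_nonneg (by linarith) (by linarith)
        nlinarith
      rw [Real.rpow_natCast] at h5
      exact_mod_cast h5
    have h5 : D ^ r ≤ D ^ (L * C) := by
      rw [pow_mul]
      exact h3.trans (Nat.pow_le_pow_left h4.le C)
    exact (Nat.pow_le_pow_iff_right (by omega)).mp h5
  have hq2 : q ≤ 2 * κ * p := by
    have h3 : D ^ q ≤ D ^ (2 * κ * p) := by
      calc D ^ q ≤ (H ^ 2) ^ q := Nat.pow_le_pow_left hDH q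
        _ = (H ^ q) ^ 2 := by rw [← pow_mul, ← pow_mul, mul_comm]
        _ ≤ (D ^ (κ * p)) ^ 2 := Nat.pow_le_pow_left hHqκ 2
        _ = _ := by rw [← pow_mul]; congr 1; ring
    exact (Nat.pow_le_pow_iff_right (by omega)).mp h3
  have hwDZ : IsCoprime (D : ℤ) (w : ℤ) := by
    rw [Nat.isCoprime_iff_coprime, Nat.coprime_comm]
    exact hwD
  obtain ⟨b, B0, X, A, hbabs, hB0abs, hXabs, hAabs, hDXA, hDb, hpow⟩ :=
    exists_signs hr hrq heq hD3 hDx hp0 hwDZ h1 h2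
  have hb : b ≠ 0 := by
    apply abs_pos.mp
    rw [hbabs]
    positivity
  have hB0 : B0 ≠ 0 := by
    apply abs_pos.mp
    rw [hB0abs]
    positivity
  have hX : X ≠ 0 := by
    apply abs_pos.mp
    rw [hXabs]
    positivity
  have hA : A ≠ 0 := by
    apply abs_pos.mp
    rw [hAabs]
    positivity
  have hXA : X ≠ A := by
    intro h
    rw [h, hAabs] at hXabs
    exact hne1 (by exact_mod_cast hXabs.symm)
  have hDr : IsCoprime (D : ℤ) (r : ℤ) := by
    rw [Nat.isCoprime_iff_coprime, Nat.coprime_comm]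
    exact (Nat.Prime.coprime_iff_not_dvd hr).mpr hrD
  have hDA : IsCoprime (D : ℤ) A := by
    rw [← IsCoprime.abs_right_iff, hAabs]
    exact hwDZ.pow_right
  have hDB : IsCoprime (D : ℤ) B0 := by
    rw [← IsCoprime.abs_right_iff, hB0abs]
    exact hwDZ.pow_right
  have hbR : |(b : ℝ)| = z * u ^ q := by exact_mod_cast congrArg (Int.cast (R := ℝ)) hbabs
  have hB0R : |(B0 : ℝ)| = w ^ q := by exact_mod_cast congrArg (Int.cast (R := ℝ)) hB0abs
  have hXR : |(X : ℝ)| = y * u ^ r := by exact_mod_cast congrArg (Int.cast (R := ℝ)) hXabs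
  have hAR : |(A : ℝ)| = w ^ r := by exact_mod_cast congrArg (Int.cast (R := ℝ)) hAabs
  have hlogH0 : 0 < Real.log H := by
    have h3 : (1 : ℝ) < H := by
      have h4 : 1 < H := by
        by_contra h5
        have h6 : H = 1 := by omega
        rw [h6] at hDH
        omega
      exact_mod_cast h4
    exact Real.log_pos h3
  have hlogD0 : 0 < Real.log D := Real.log_pos (by linarith)
  -- the conclusion
  suffices hfin : (L * (1 - θ * (L - 1) / (2 * r)) - ε) * Real.log D ≤ Real.log H by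
    have h3 := Real.log_lt_log hH0R hcon
    rw [Real.log_rpow hD0R] at h3
    linarith
  have hs0 : 0 ≤ s := le_trans (Nat.cast_nonneg q) hqs
  obtain ⟨lam, hlamdef⟩ : ∃ lam : ℝ, lam = s / r := ⟨_, rfl⟩
  have hlam0 : 0 ≤ lam := by rw [hlamdef]; positivity
  have hlamr : lam * r = s := by
    rw [hlamdef]
    exact div_mul_cancel₀ _ hrpos.ne'
  obtain ⟨σ, hσ⟩ : ∃ σ : ℕ → ℕ, σ = fun i : ℕ => ⌈lam * (i : ℝ)⌉₊ := ⟨_, rfl⟩
  have hσi : ∀ i, lam * i ≤ σ i := by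
    intro i
    rw [hσ]
    exact Nat.le_ceil _
  have hσr : ∀ i, q * i ≤ r * σ i := by
    intro i
    have h4 : (q : ℝ) * i ≤ r * σ i := by
      calc (q : ℝ) * i ≤ s * i := mul_le_mul_of_nonneg_right hqs (Nat.cast_nonneg _)
        _ = r * (lam * i) := by
            rw [← hlamr]
            ring
        _ ≤ _ := mul_le_mul_of_nonneg_left (hσi i) hrpos.le
    exact_mod_cast h4
  have hw0R : (0 : ℝ) < w := by linarith
  have hwHr : (w : ℝ) ^ (r : ℝ) ≤ H := by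
    rw [Real.rpow_natCast]
    exact_mod_cast hwH
  -- the size of `z u ^ q w ^ (s - q)`
  have hzlam : (z : ℝ) * u ^ q * (w : ℝ) ^ (s - q) ≤ 2 * (H : ℝ) ^ lam := by
    refine le_of_pow_le_pow_left₀ hr0.ne' (by positivity) ?_
    have h3 : ((z : ℝ) * u ^ q * (w : ℝ) ^ (s - q)) ^ r =
        ((z : ℝ) * u ^ q) ^ r * (w : ℝ) ^ (r * (s - q)) := by
      rw [mul_pow, ← Real.rpow_natCast ((w : ℝ) ^ (s - q)), ← Real.rpow_mul hw0R.le, mul_comm (s - q)]
    have h4 : (2 * (H : ℝ) ^ lam) ^ r = 2 ^ r * (H : ℝ) ^ s := by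
      rw [mul_pow, ← Real.rpow_natCast ((H : ℝ) ^ lam), ← Real.rpow_mul hH0R.le, hlamr]
    rw [h3, h4]
    have h5 : ((z : ℝ) * u ^ q) ^ r ≤ (x : ℝ) ^ p * u ^ (q * r) + (H : ℝ) ^ q := by exact_mod_cast hzsum
    have h6 : (w : ℝ) ^ (r * (s - q)) ≤ (H : ℝ) ^ (s - q) := by
      rw [Real.rpow_mul hw0R.le]
      exact Real.rpow_le_rpow (by positivity) hwHr (by linarith)
    have h7 : (H : ℝ) ^ q * (H : ℝ) ^ (s - q) = (H : ℝ) ^ s := by
      rw [← Real.rpow_natCast (H : ℝ) q, ← Real.rpow_add hH0R]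
      congr 1
      ring
    have h8 : (2 : ℝ) ≤ 2 ^ r := le_self_pow₀ (by norm_num) hr0.ne'
    calc ((z : ℝ) * u ^ q) ^ r * (w : ℝ) ^ (r * (s - q))
        ≤ ((x : ℝ) ^ p * u ^ (q * r) + (H : ℝ) ^ q) * (w : ℝ) ^ (r * (s - q)) := by gcongr
      _ = (x : ℝ) ^ p * u ^ (q * r) * (w : ℝ) ^ (r * (s - q)) +
          (H : ℝ) ^ q * (w : ℝ) ^ (r * (s - q)) := by ring
      _ ≤ (H : ℝ) ^ s + (H : ℝ) ^ q * (H : ℝ) ^ (s - q) := by gcongr
      _ = 2 * (H : ℝ) ^ s := by rw [h7]; ring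
      _ ≤ _ := by gcongr
  -- one power
  have hone : ∀ i < L, ((z : ℝ) * u ^ q) ^ i * (w : ℝ) ^ (r * σ i - q * i) ≤
      2 ^ L * (H : ℝ) ^ (σ i) := by
    intro i hi
    have h3 : (w : ℝ) ^ (r * σ i - q * i) =
        ((w : ℝ) ^ (s - q)) ^ i * (w : ℝ) ^ ((r : ℝ) * (σ i - lam * i)) := by
      rw [← Real.rpow_natCast (w : ℝ), ← Real.rpow_natCast ((w : ℝ) ^ (s - q)),
        ← Real.rpow_mul hw0R.le, ← Real.rpow_add hw0R]
      congr 1
      rw [Nat.cast_sub (hσr i)]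
      push_cast
      rw [← hlamr]
      ring
    have h4 : (w : ℝ) ^ ((r : ℝ) * (σ i - lam * i)) ≤ (H : ℝ) ^ ((σ i : ℝ) - lam * i) := by
      rw [Real.rpow_mul hw0R.le]
      exact Real.rpow_le_rpow (by positivity) hwHr (by linarith [hσi i])
    calc ((z : ℝ) * u ^ q) ^ i * (w : ℝ) ^ (r * σ i - q * i)
        = ((z : ℝ) * u ^ q * (w : ℝ) ^ (s - q)) ^ i * (w : ℝ) ^ ((r : ℝ) * (σ i - lam * i)) := by
          rw [h3, mul_pow ((z : ℝ) * u ^ q)]
          ring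
      _ ≤ (2 * (H : ℝ) ^ lam) ^ i * (H : ℝ) ^ ((σ i : ℝ) - lam * i) := by gcongr
      _ = 2 ^ i * (H : ℝ) ^ (σ i) := by
          rw [mul_pow, ← Real.rpow_natCast ((H : ℝ) ^ lam), ← Real.rpow_mul hH0R.le, mul_assoc,
            ← Real.rpow_add hH0R, ← Real.rpow_natCast (H : ℝ) (σ i)]
          congr 2
          ring
      _ ≤ _ := by
          have h7 : (2 : ℝ) ^ i ≤ 2 ^ L := pow_le_pow_right₀ (by norm_num) hi.le
          gcongr
  refine hrel b B0 X A r q p D σ H lam (by omega) (by omega) hr hLr hrLC hrq hq2 hb hB0 hX hA hXA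
    ((hDr.mul_right hDA).mul_right hDB) hDXA hpow ⟨1, by rw [pow_one]; exact hDb⟩
    (by exact_mod_cast hDH) hH1R hlam0 ?_ ?_ ?_
  · intro i _
    rw [hσ]
    exact (Nat.ceil_lt_add_one (by positivity)).le
  · rw [le_div_iff₀ hrpos]
    have h3 := Real.log_le_log (by positivity) hHs
    rw [Real.log_rpow hH0R, Real.log_rpow hD0R] at h3
    calc lam * Real.log H * r = s * Real.log H := by
          rw [← hlamr]
          ring
      _ ≤ _ := h3
  · intro n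
    refine ⟨(w : ℤ) ^ (q * (L - 1)), by positivity, hwDZ.pow_right, ?_⟩
    intro i hi j hij
    have hij2 : q * i ≤ r * (n - j) := by
      refine (hσr i).trans (Nat.mul_le_mul_left _ ?_)
      omega
    have h7 : q * (L - 1) = q * (L - 1 - i) + q * i := by
      rw [← mul_add]
      congr 1
      omega
    constructor
    · rw [← dvd_abs, abs_mul, abs_pow, abs_pow, hB0abs, hAabs, ← pow_mul, ← pow_mul, ← pow_add]
      apply pow_dvd_pow
      omega
    rw [hbR, hB0R, hXR, hAR]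
    have h4 : ((z : ℝ) * u ^ q) ^ i * (y * u ^ r) ^ j * (w : ℝ) ^ (r * (n - j) - q * i) ≤
        2 ^ L * (H : ℝ) ^ n := by
      have e1 : r * (n - j) - q * i = (r * σ i - q * i) + r * (n - j - σ i) := by
        have e2 : r * (n - j) = r * σ i + r * (n - j - σ i) := by
          rw [← mul_add]
          congr 1
          omega
        have := hσr i
        omega
      have e3 : ((y : ℝ) * u ^ r) ^ j ≤ (H : ℝ) ^ j := by
        apply pow_le_pow_left₀ (by positivity)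
        exact_mod_cast hyH
      have e4 : ((w : ℝ) ^ r) ^ (n - j - σ i) ≤ (H : ℝ) ^ (n - j - σ i) := by
        apply pow_le_pow_left₀ (by positivity)
        exact_mod_cast hwH
      calc ((z : ℝ) * u ^ q) ^ i * (y * u ^ r) ^ j * (w : ℝ) ^ (r * (n - j) - q * i)
          = (((z : ℝ) * u ^ q) ^ i * (w : ℝ) ^ (r * σ i - q * i)) * ((y * u ^ r) ^ j *
            ((w : ℝ) ^ r) ^ (n - j - σ i)) := by
            rw [e1, pow_add, ← pow_mul]
            ring
        _ ≤ (2 ^ L * (H : ℝ) ^ (σ i)) * ((H : ℝ) ^ j * (H : ℝ) ^ (n - j - σ i)) := by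
            have := hone i hi
            gcongr
        _ = 2 ^ L * (H : ℝ) ^ n := by
            rw [mul_assoc, ← pow_add, ← pow_add]
            congr 2
            omega
    have h5 : ((z : ℝ) * u ^ q) ^ i * ((w : ℝ) ^ q) ^ (L - 1 - i) *
        ((y * u ^ r) ^ j * ((w : ℝ) ^ r) ^ (n - j)) = (w : ℝ) ^ (q * (L - 1)) *
        (((z : ℝ) * u ^ q) ^ i * (y * u ^ r) ^ j * (w : ℝ) ^ (r * (n - j) - q * i)) := by
      have h6 : ((w : ℝ) ^ q) ^ (L - 1 - i) * ((w : ℝ) ^ r) ^ (n - j) =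
          (w : ℝ) ^ (q * (L - 1)) * (w : ℝ) ^ (r * (n - j) - q * i) := by
        rw [← pow_mul, ← pow_mul, ← pow_add, ← pow_add]
        congr 1
        omega
      linear_combination (((z : ℝ) * u ^ q) ^ i * (y * u ^ r) ^ j) * h6
    rw [h5]
    have h6 : |(((w : ℤ) ^ (q * (L - 1)) : ℤ) : ℝ)| = (w : ℝ) ^ (q * (L - 1)) := by
      push_cast
      exact abs_of_nonneg (by positivity)
    rw [h6]
    exact mul_le_mul_of_nonneg_left h4 (by positivity)

end Pool.Agent.K9h9.SR
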